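import Pool.Agent.Y179.LD.Z1f
import Pool.Agent.Y745.LD.DefsB

/-!
# LD-Z1: approximation of `log |ζ|` near the critical line where there are no zeros
-/

set_option autoImplicit false

namespace Pool.Agent.Y179.LD

open Filter Topology Complex Set Metric
open ArithmeticFunction (vonMangoldt)

noncomputable section

/-- derivative of the logarithm of the absolute value -/
lemma hasDerivAt_log_norm {f : ℝ → ℂ} {f' : ℂ} {x : ℝ} (hf : HasDerivAt f f' x) (h0 : f x ≠ 0) :
    HasDerivAt (fun y => Real.log ‖f y‖) (f' / f x).re x := by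
  have h1 : HasDerivAt (fun y => f y / f x) (f' / f x) x := hf.div_const (f x)
  have h2 : HasDerivAt (fun y => Complex.log (f y / f x)) ((f' / f x) / (f x / f x)) x := by
    refine h1.clog_real ?_
    rw [div_self h0]
    exact Complex.one_mem_slitPlane
  rw [div_self h0, div_one] at h2
  have h3 := (Complex.reCLM.hasFDerivAt.comp_hasDerivAt x h2)
  have h4 : HasDerivAt (fun y => Real.log ‖f y / f x‖ + Real.log ‖f x‖) (f' / f x).re x := by
    have h5 : (fun y => Real.log ‖f y / f x‖) = fun y => (Complex.log (f y / f x)).re := by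
      funext y
      rw [Complex.log_re]
    have h6 : HasDerivAt (fun y => Real.log ‖f y / f x‖) (f' / f x).re x := by
      rw [h5]
      exact h3
    exact h6.add_const _
  refine h4.congr_of_eventuallyEq ?_
  filter_upwards [hf.continuousAt.eventually_ne h0] with y hy
  rw [norm_div, Real.log_div (norm_ne_zero_iff.2 hy) (norm_ne_zero_iff.2 h0)]
  ring

/-- the main term -/
def SS (w : ℕ → ℝ) (N : ℕ) (s : ℂ) : ℂ :=
  ∑ n ∈ Finset.Icc 2 N, ((vonMangoldt n / Real.log n * w n : ℝ) : ℂ) * (n : ℂ) ^ (-s)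

lemma SS_deriv (w : ℕ → ℝ) (N : ℕ) (t σ : ℝ) :
    HasDerivAt (fun x : ℝ => SS w N (x + t * I))
      (-∑ n ∈ Finset.Icc 2 N, am (σ + t * I) n * ((w n : ℝ) : ℂ)) σ := by
  unfold SS
  rw [← Finset.sum_neg_distrib]
  refine HasDerivAt.fun_sum fun n hn => ?_
  have hn2 : 2 ≤ n := (Finset.mem_Icc.1 hn).1
  have hn0 : (n : ℂ) ≠ 0 := by exact_mod_cast (by omega : n ≠ 0)
  have hlog : Real.log n ≠ 0 := by
    have : 0 < Real.log n := Real.log_pos (by exact_mod_cast hn2)
    exact this.ne'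
  have h1 : HasDerivAt (fun z : ℂ => -(z + t * I)) (-1) (σ : ℂ) :=
    ((hasDerivAt_id (σ : ℂ)).add_const (t * I)).neg
  have h2 := ((h1.const_cpow (c := (n : ℂ)) (Or.inl hn0)).const_mul
    ((vonMangoldt n / Real.log n * w n : ℝ) : ℂ)).comp_ofReal
  refine h2.congr_deriv ?_
  unfold am
  have h3 : Complex.log (n : ℂ) ≠ 0 := by
    rw [← Complex.natCast_log]
    exact_mod_cast hlog
  have h4 : ((vonMangoldt n / Real.log n * w n : ℝ) : ℂ) =
      (vonMangoldt n : ℂ) / Complex.log (n : ℂ) * (w n : ℂ) := by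
    rw [← Complex.natCast_log]
    push_cast
    rfl
  rw [h4]
  field_simp

lemma SS_norm {w : ℕ → ℝ} (hw : ∀ n, 0 ≤ w n ∧ w n ≤ 1) (N : ℕ) {s : ℂ} (hs : 3 ≤ s.re) :
    ‖SS w N s‖ ≤ 1 / 4 := by
  unfold SS
  refine (norm_sum_le _ _).trans ((Finset.sum_le_sum fun n hn => ?_).trans (sum_cubes_Icc N))
  have hn2 : 2 ≤ n := (Finset.mem_Icc.1 hn).1
  have hn1 : (1 : ℝ) ≤ n := by exact_mod_cast (by omega : 1 ≤ n)
  have hlog : 0 < Real.log n := Real.log_pos (by exact_mod_cast hn2)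
  rw [norm_mul, Complex.norm_real, Complex.norm_natCast_cpow_of_pos (by omega), neg_re]
  have h1 : vonMangoldt n / Real.log n ≤ 1 :=
    (div_le_one hlog).2 ArithmeticFunction.vonMangoldt_le_log
  have h2 : 0 ≤ vonMangoldt n / Real.log n :=
    div_nonneg ArithmeticFunction.vonMangoldt_nonneg hlog.le
  have h3 : (n : ℝ) ^ (-s.re) ≤ 1 / (n : ℝ) ^ 3 := by
    rw [Real.rpow_neg (by linarith), ← one_div]
    apply one_div_le_one_div_of_le (by positivity)
    calc (n : ℝ) ^ 3 = (n : ℝ) ^ (3 : ℝ) := by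
          rw [show (3 : ℝ) = ((3 : ℕ) : ℝ) by norm_num, Real.rpow_natCast]
      _ ≤ _ := Real.rpow_le_rpow_of_exponent_le hn1 hs
  rw [Real.norm_of_nonneg (mul_nonneg h2 (hw n).1)]
  calc vonMangoldt n / Real.log n * w n * (n : ℝ) ^ (-s.re) ≤ 1 * 1 * (1 / (n : ℝ) ^ 3) := by
        have h4 := (hw n).1
        have h5 := (hw n).2
        have h6 : 0 ≤ (n : ℝ) ^ (-s.re) := Real.rpow_nonneg (by linarith) _
        gcongr
    _ = _ := by ring

theorem t_Z1 : Pool.Agent.Y745.LD.P_Z1 := by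
  intro e D he he1 hD
  filter_upwards [Real.tendsto_log_atTop.eventually (cond_eventually (D := D) he he1),
    eventually_ge_atTop 1] with T hc hT k hk1 hk2
  set L : ℝ := Real.log T with hL
  have hLT : Real.exp L = T := Real.exp_log (by linarith)
  have c0 := hc.c0
  have hL0 : 0 < L := by linarith
  set w : ℕ → ℝ := fun n => Ph (L ^ (1 - e / 2) - Real.log n) with hw
  have hw01 : ∀ n, 0 ≤ w n ∧ w n ≤ 1 := fun n => ⟨Ph_nonneg _, Ph_le_one _⟩
  refine ⟨w, hw01, ?_, ?_⟩
  · intro n hn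
    have hl0 : 0 ≤ L ^ (1 - e / 2) := Real.rpow_nonneg hL0.le _
    have h1 : Real.log n ≤ L ^ (1 - 2 * e / 3) := by
      rcases Nat.eq_zero_or_pos n with rfl | hn0
      · simp only [Nat.cast_zero, Real.log_zero]
        exact Real.rpow_nonneg hL0.le _
      · rw [← Real.log_exp (L ^ (1 - 2 * e / 3))]
        exact Real.log_le_log (by exact_mod_cast hn0) hn
    have h2 := hc.c9
    have h3 := one_sub_Ph (v := L ^ (1 - e / 2) - Real.log n) (by linarith)
    refine h3.trans ?_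
    have h4 : Real.exp (-(L ^ (1 - e / 2) - Real.log n) ^ 2 / 4) ≤
        Real.exp (-(1 / 16) * L ^ (2 - e)) := by
      apply Real.exp_le_exp.2
      have h5 : L ^ (2 - e) = (L ^ (1 - e / 2)) ^ 2 := by
        rw [← Real.rpow_natCast, ← Real.rpow_mul hL0.le]
        congr 1
        push_cast
        ring
      rw [h5]
      nlinarith
    refine h4.trans ?_
    have h6 := hc.c10
    rw [one_mul, Real.rpow_two] at h6
    rw [le_div_iff₀ (by positivity)]
    linarith
  · intro t ht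
    obtain ⟨hG, ht1, ht2⟩ := ht
    have hG' : ∀ s : ℂ, riemannZeta s = 0 → 0 < s.re → s.re < 1 → |s.im - t| ≤ L →
        |s.re - 1 / 2| ≤ D * Real.log L / L := by
      intro s h1 h2 h3 h4
      exact hG s h1 h2 h3 (by rw [one_mul]; exact h4)
    set N : ℕ := ⌊Real.exp (L ^ (1 - e / 3))⌋₊ with hN
    set σ0 : ℝ := 1 / 2 + k * L ^ (e - 1) with hσ0
    have hp : 0 < L ^ (e - 1) := Real.rpow_pos_of_pos hL0 _
    have hc2 := hc.c2
    have hσ1 : 1 / 2 + L ^ (e - 1) ≤ σ0 := by rw [hσ0]; nlinarith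
    have hσ3 : σ0 ≤ 3 := by rw [hσ0]; nlinarith
    have hone : ∀ σ ∈ Set.Icc σ0 3, ((σ : ℂ) + t * I) ≠ 1 ∧ riemannZeta (σ + t * I) ≠ 0 ∧
        ‖q (σ + t * I) - ∑ n ∈ Finset.Icc 2 N, am (σ + t * I) n * ((w n : ℝ) : ℂ)‖ ≤ 1 / 10 := by
      intro σ hσ
      exact one_height he he1 hT hLT hc ht1 ht2 hG' (hσ1.trans hσ.1) hσ.2
    have hder : ∀ σ ∈ Set.Icc σ0 3, HasDerivWithinAt
        (fun x : ℝ => Real.log ‖riemannZeta (x + t * I)‖ - (SS w N (x + t * I)).re)
        (-(q (σ + t * I) - ∑ n ∈ Finset.Icc 2 N, am (σ + t * I) n * ((w n : ℝ) : ℂ)).re)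
        (Set.Icc σ0 3) σ := by
      intro σ hσ
      obtain ⟨a1, a2, -⟩ := hone σ hσ
      have h1 : HasDerivAt (fun x : ℝ => riemannZeta (x + t * I))
          (deriv riemannZeta (σ + t * I)) σ := by
        have h2 := (differentiableAt_riemannZeta a1).hasDerivAt
        exact (HasDerivAt.comp_add_const (σ : ℂ) (t * I) h2).comp_ofReal
      have h5 := hasDerivAt_log_norm h1 a2
      have h6 := Complex.reCLM.hasFDerivAt.comp_hasDerivAt σ (SS_deriv w N t σ)
      have h7 : HasDerivAt (fun x : ℝ => (SS w N (x + t * I)).re)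
          (-∑ n ∈ Finset.Icc 2 N, am (σ + t * I) n * ((w n : ℝ) : ℂ)).re σ := h6
      have h8 := (h5.sub h7).hasDerivWithinAt (s := Set.Icc σ0 3)
      refine h8.congr_deriv ?_
      unfold q
      simp only [sub_re, neg_re]
      ring
    have hmv := (convex_Icc σ0 3).norm_image_sub_le_of_norm_hasDerivWithin_le hder
      (C := 1 / 10) (by
        intro σ hσ
        obtain ⟨-, -, a3⟩ := hone σ hσ
        rw [norm_neg, Real.norm_eq_abs]
        exact (Complex.abs_re_le_norm _).trans a3)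
      (Set.left_mem_Icc.2 hσ3) (Set.right_mem_Icc.2 hσ3)
    have h3re : (3 : ℝ) ≤ (((3 : ℝ) : ℂ) + t * I).re := by simp
    have b1 := SS_norm hw01 N h3re
    have b2 := zeta_near_one h3re
    have b3 : |Real.log ‖riemannZeta (((3 : ℝ) : ℂ) + t * I)‖| ≤ 1 / 3 := by
      have h1 : |‖riemannZeta (((3 : ℝ) : ℂ) + t * I)‖ - 1| ≤ 1 / 4 := by
        have := abs_norm_sub_norm_le (riemannZeta (((3 : ℝ) : ℂ) + t * I)) 1
        rw [norm_one] at this
        exact this.trans b2
      rw [abs_le] at h1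
      set r := ‖riemannZeta (((3 : ℝ) : ℂ) + t * I)‖ with hr
      have hr0 : 0 < r := by linarith
      rw [abs_le]
      constructor
      · have h2 := Real.one_sub_inv_le_log_of_pos hr0
        have h3 : r⁻¹ ≤ 4 / 3 := by
          rw [inv_le_comm₀ hr0 (by norm_num)]
          linarith
        linarith
      · have h2 := Real.log_le_sub_one_of_pos hr0
        linarith
    have b4 : |(SS w N (((3 : ℝ) : ℂ) + t * I)).re| ≤ 1 / 4 :=
      (Complex.abs_re_le_norm _).trans b1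
    have b5 : ‖(3 : ℝ) - σ0‖ ≤ 5 / 2 := by
      rw [Real.norm_of_nonneg (by linarith)]
      nlinarith
    have hσc : (1 / 2 + ((k * L ^ (e - 1) : ℝ) : ℂ) + t * I) = (σ0 : ℂ) + t * I := by
      rw [hσ0]
      push_cast
      ring
    have goal1 : |Real.log ‖riemannZeta ((σ0 : ℂ) + t * I)‖ - (SS w N ((σ0 : ℂ) + t * I)).re| ≤ 1 := by
      rw [Real.norm_eq_abs] at hmv
      have h1 : 1 / 10 * ‖(3 : ℝ) - σ0‖ ≤ 1 / 4 := by linarith
      have h2 := hmv.trans h1
      rw [abs_le] at h2 b3 b4 ⊢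
      constructor <;> linarith [h2.1, h2.2, b3.1, b3.2, b4.1, b4.2]
    rw [hσc]
    exact goal1

end

end Pool.Agent.Y179.LD
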