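import Pool.Agent.Y179.LD.Z1e
import Pool.Agent.H388LH.ZG

/-!
# LD-Z1: the logarithmic derivative where there are no zeros

`logDeriv_zero_free` is copied from `Pool.Agent.W613.MO.ZA`.
-/

set_option autoImplicit false

namespace Pool.Agent.Y179.LD

open Filter Topology Complex Set Metric

/-- Bound for the logarithmic derivative in a zero-free disc (Borel-Caratheodory and Cauchy). -/
theorem logDeriv_zero_free {g : ℂ → ℂ} {c : ℂ} {r r2 B : ℝ} (hr : 0 < r) (hr2 : 0 ≤ r2)
    (h2r : r2 < r) (hB : 0 < B)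
    (hg : AnalyticOnNhd ℂ g (ball c r)) (hg0 : ∀ z ∈ ball c r, g z ≠ 0)
    (hb : ∀ z ∈ ball c r, ‖g z‖ ≤ Real.exp B * ‖g c‖) {z : ℂ} (hz : z ∈ closedBall c r2) :
    ‖deriv g z / g z‖ ≤ 16 * r / (r - r2) ^ 2 * B := by
  have hcr : c ∈ ball c r := mem_ball_self hr
  have hqd : DifferentiableOn ℂ (fun z => deriv g z / g z) (ball c r) := by
    intro w hw
    exact ((hg w hw).deriv.div (hg w hw) (hg0 w hw)).differentiableAt.differentiableWithinAt
  obtain ⟨h, hc0, hh⟩ := hqd.isExactOn_ball.with_val_at c 0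
  have hexp : ∀ z ∈ ball c r, g z = g c * Complex.exp (h z) := by
    have hconst : ∀ z ∈ ball c r, g z * Complex.exp (-h z) = g c * Complex.exp (-h c) := by
      intro z hz
      have hd : ∀ w ∈ ball c r, HasDerivAt (fun w => g w * Complex.exp (-h w)) 0 w := by
        intro w hw
        have h1 : HasDerivAt (fun w => g w * Complex.exp (-h w))
            (deriv g w * Complex.exp (-h w) + g w * (Complex.exp (-h w) * -(deriv g w / g w))) w :=
          (hg w hw).differentiableAt.hasDerivAt.mul (hh w hw).neg.cexp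
        have hGw := hg0 w hw
        have h2 : deriv g w * Complex.exp (-h w) +
            g w * (Complex.exp (-h w) * -(deriv g w / g w)) = 0 := by
          field_simp
          ring
        rw [h2] at h1
        exact h1
      exact isOpen_ball.is_const_of_deriv_eq_zero (isConnected_ball hr).isPreconnected
        (fun w hw => (hd w hw).differentiableAt.differentiableWithinAt)
        (fun w hw => (hd w hw).deriv) hz (mem_ball_self hr)
    intro z hz
    have h1 := hconst z hz
    rw [hc0, neg_zero, Complex.exp_zero, mul_one] at h1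
    rw [← h1, mul_assoc, ← Complex.exp_add]
    simp
  have hgc : 0 < ‖g c‖ := norm_pos_iff.2 (hg0 c hcr)
  have hre : ∀ z ∈ ball c r, (h z).re ≤ B := by
    intro z hz
    have h1 := hb z hz
    rw [hexp z hz, norm_mul, Complex.norm_exp, mul_comm] at h1
    exact Real.exp_le_exp.1 (le_of_mul_le_mul_right h1 hgc)
  rw [mem_closedBall, dist_eq_norm] at hz
  have h1 : DifferentiableOn ℂ (fun w => h (c + w)) (ball 0 r) := by
    intro w hw
    have hcw : c + w ∈ ball c r := by
      rw [mem_ball, dist_eq_norm, add_sub_cancel_left]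
      simpa using hw
    have := (hh (c + w) hcw).differentiableAt
    exact (this.comp w (by fun_prop : DifferentiableAt ℂ (fun w => c + w) w)).differentiableWithinAt
  have h2 : MapsTo (fun w => h (c + w)) (ball 0 r) {z | z.re ≤ B} := by
    intro w hw
    have hcw : c + w ∈ ball c r := by
      rw [mem_ball, dist_eq_norm, add_sub_cancel_left]
      simpa using hw
    exact hre _ hcw
  -- radius of the intermediate disc
  set e : ℝ := (r - r2) / 2 with he
  have he0 : 0 < e := by rw [he]; linarith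
  have hbd : ∀ u : ℂ, ‖u - c‖ ≤ r - e → ‖h u‖ ≤ 2 * B * r / e := by
    intro u hu
    have h3 : u - c ∈ ball (0:ℂ) r := by
      rw [mem_ball, dist_zero_right]
      linarith
    have h4 := Complex.borelCaratheodory_zero hB h1 h2 hr h3 (by simp [hc0])
    simp only [add_sub_cancel] at h4
    have h5 : e ≤ r - ‖u - c‖ := by linarith
    refine h4.trans ?_
    have h6 : ‖u - c‖ ≤ r := by linarith
    gcongr
  have hzb : z ∈ ball c r := by
    rw [mem_ball, dist_eq_norm]; linarith
  have hdz : deriv h z = deriv g z / g z := (hh z hzb).deriv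
  have hsub : closedBall z e ⊆ ball c r := by
    intro u hu
    rw [mem_closedBall, dist_eq_norm] at hu
    rw [mem_ball, dist_eq_norm]
    have : ‖u - c‖ ≤ ‖u - z‖ + ‖z - c‖ := by
      have := norm_add_le (u - z) (z - c)
      simpa using this
    have : r2 + e < r := by rw [he]; linarith
    linarith
  have hdc : DiffContOnCl ℂ h (ball z e) := by
    have : DifferentiableOn ℂ h (closedBall z e) := fun u hu =>
      (hh u (hsub hu)).differentiableAt.differentiableWithinAt
    exact this.diffContOnCl_ball (Subset.refl _)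
  have h7 := Complex.norm_deriv_le_of_forall_mem_sphere_norm_le he0 hdc (C := 2 * B * r / e)
    (by
      intro u hu
      rw [mem_sphere, dist_eq_norm] at hu
      refine hbd u ?_
      have h8 : ‖u - c‖ ≤ ‖u - z‖ + ‖z - c‖ := by
        have := norm_add_le (u - z) (z - c)
        simpa using this
      have : r2 + e = r - e := by rw [he]; ring
      linarith)
  rw [hdz] at h7
  refine h7.trans (le_of_eq_of_le ?_ (le_refl (8 * r / (r - r2) ^ 2 * B)) |>.trans ?_)
  · rw [he]
    have : r - r2 ≠ 0 := by linarith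
    field_simp
    ring
  · have : 0 ≤ r / (r - r2) ^ 2 * B := by positivity
    have e1 : 8 * r / (r - r2) ^ 2 * B = 8 * (r / (r - r2) ^ 2 * B) := by ring
    have e2 : 16 * r / (r - r2) ^ 2 * B = 16 * (r / (r - r2) ^ 2 * B) := by ring
    rw [e1, e2]
    linarith


lemma sum_cubes (n : ℕ) : ∑ i ∈ Finset.range n, 1 / ((i : ℝ) + 2) ^ 3 ≤
    1 / 4 - 1 / (2 * ((n : ℝ) + 1) * (n + 2)) := by
  induction n with
  | zero => norm_num
  | succ n ih =>
    rw [Finset.sum_range_succ]
    push_cast
    have h1 : 1 / ((n : ℝ) + 2) ^ 3 ≤ 1 / (((n : ℝ) + 1) * (n + 2) * (n + 3)) := by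
      apply one_div_le_one_div_of_le (by positivity)
      nlinarith
    have h2 : 1 / (((n : ℝ) + 1) * (n + 2) * (n + 3)) =
        1 / (2 * ((n : ℝ) + 1) * (n + 2)) - 1 / (2 * ((n : ℝ) + 1 + 1) * (n + 1 + 2)) := by
      have : (n : ℝ) + 1 + 1 = n + 2 := by ring
      rw [this]
      have : (n : ℝ) + 1 + 2 = n + 3 := by ring
      rw [this]
      field_simp
      ring
    linarith

lemma sum_cubes_Icc (N : ℕ) : ∑ n ∈ Finset.Icc 2 N, 1 / (n : ℝ) ^ 3 ≤ 1 / 4 := by
  have h1 : ∑ n ∈ Finset.Icc 2 N, 1 / (n : ℝ) ^ 3 ≤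
      ∑ i ∈ Finset.range N, 1 / ((i : ℝ) + 2) ^ 3 := by
    have h2 : Finset.Icc 2 N ⊆ (Finset.range N).image (fun i => i + 2) := by
      intro n hn
      rw [Finset.mem_Icc] at hn
      rw [Finset.mem_image]
      exact ⟨n - 2, Finset.mem_range.2 (by omega), by omega⟩
    refine (Finset.sum_le_sum_of_subset_of_nonneg h2 fun n _ _ => by positivity).trans ?_
    rw [Finset.sum_image (fun a _ b _ h => by simpa using h)]
    push_cast
    exact le_rfl
  have h3 := sum_cubes N
  have : 0 ≤ 1 / (2 * ((N : ℝ) + 1) * (N + 2)) := by positivity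
  linarith

lemma zeta_near_one {s : ℂ} (hs : 3 ≤ s.re) : ‖riemannZeta s - 1‖ ≤ 1 / 4 := by
  have h1 := zeta_eq_tsum_one_div_nat_add_one_cpow (s := s) (by linarith)
  have hsum : Summable fun n : ℕ => 1 / ((n : ℂ) + 1) ^ s := by
    have := Complex.summable_one_div_nat_cpow.2 (show 1 < s.re by linarith)
    have := (summable_nat_add_iff 1).2 this
    refine this.congr fun n => ?_
    push_cast
    rfl
  rw [hsum.tsum_eq_zero_add] at h1
  have h2 : riemannZeta s - 1 = ∑' n : ℕ, 1 / (((n + 1 : ℕ) : ℂ) + 1) ^ s := by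
    rw [h1]
    simp
  rw [h2]
  have hcube : Summable fun i : ℕ => 1 / ((i : ℝ) + 2) ^ 3 := by
    have := (Real.summable_one_div_nat_pow (p := 3)).2 (by norm_num)
    have := (summable_nat_add_iff 2).2 this
    refine this.congr fun n => ?_
    push_cast
    rfl
  refine (tsum_of_norm_bounded hcube.hasSum fun n => ?_).trans ?_
  · have e1 : ((n + 1 : ℕ) : ℂ) + 1 = ((n + 2 : ℕ) : ℂ) := by push_cast; ring
    rw [e1, norm_div, norm_one, Complex.norm_natCast_cpow_of_pos (by omega)]
    apply one_div_le_one_div_of_le (by positivity)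
    have e2 : (1 : ℝ) ≤ ((n + 2 : ℕ) : ℝ) := by push_cast; linarith [n.cast_nonneg (α := ℝ)]
    calc ((n : ℝ) + 2) ^ 3 = ((n + 2 : ℕ) : ℝ) ^ (3 : ℝ) := by
          push_cast
          rw [show (3 : ℝ) = ((3 : ℕ) : ℝ) by norm_num, Real.rpow_natCast]
      _ ≤ _ := Real.rpow_le_rpow_of_exponent_le e2 hs
  · refine Real.tsum_le_of_sum_range_le (fun n => by positivity) fun n => ?_
    have h3 := sum_cubes n
    have : 0 ≤ 1 / (2 * ((n : ℝ) + 1) * (n + 2)) := by positivity
    linarith

/-- `ζ'/ζ` where there are no zeros -/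
theorem region {T L η ρ t : ℝ} (hT : 1 ≤ T) (hLT : Real.exp L = T) (hL : 8 ≤ L) (hη : 0 < η)
    (hη8 : η ≤ 1 / 8) (hρ : ρ < η) (ht1 : T + 2 * L ≤ t) (ht2 : t ≤ 2 * T - 2 * L)
    (hG : ∀ s : ℂ, riemannZeta s = 0 → 0 < s.re → s.re < 1 → |s.im - t| ≤ L →
      |s.re - 1 / 2| ≤ ρ) {z : ℂ} (hz1 : 1 / 2 + 2 * η ≤ z.re) (hz2 : z.re ≤ 7)
    (hz3 : |z.im - t| ≤ L / 2) : z ≠ 1 ∧ riemannZeta z ≠ 0 ∧ ‖q z‖ ≤ 672 * L / η ^ 2 := by
  set c : ℂ := (4 : ℝ) + z.im * I with hc
  have hcre : c.re = 4 := by simp [hc]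
  have hcim : c.im = z.im := by simp [hc]
  rw [abs_le] at hz3
  have hball : ∀ w ∈ ball c (7 / 2 - η), 1 / 2 + η < w.re ∧ |w.im - t| ≤ L ∧ 1 ≤ w.im ∧
      w.im ≤ 2 * T ∧ w.re ≤ 8 := by
    intro w hw
    rw [mem_ball, dist_eq_norm] at hw
    have h1 := Complex.abs_re_le_norm (w - c)
    have h2 := Complex.abs_im_le_norm (w - c)
    rw [sub_re, hcre] at h1
    rw [sub_im, hcim] at h2
    rw [abs_le] at h1 h2
    refine ⟨by linarith, abs_le.2 ⟨by linarith, by linarith⟩, by linarith, by linarith,
      by linarith⟩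
  have hne1 : ∀ w ∈ ball c (7 / 2 - η), w ≠ 1 := by
    intro w hw h
    have := (hball w hw).2.2.1
    rw [h] at this
    simp at this
    linarith
  have hne0 : ∀ w ∈ ball c (7 / 2 - η), riemannZeta w ≠ 0 := by
    intro w hw h0
    obtain ⟨a1, a2, a3, -, -⟩ := hball w hw
    rcases lt_or_ge w.re 1 with h1 | h1
    · have := hG w h0 (by linarith) h1 a2
      rw [abs_le] at this
      linarith
    · exact riemannZeta_ne_zero_of_one_le_re h1 h0
  have hzc : ‖z - c‖ ≤ 7 / 2 - 2 * η := by
    have h1 : z - c = ((z.re - 4 : ℝ) : ℂ) := by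
      apply Complex.ext
      · simp [hc]
      · simp [hc]
    rw [h1, Complex.norm_real, Real.norm_eq_abs, abs_le]
    constructor <;> linarith
  have hzb : z ∈ ball c (7 / 2 - η) := by
    rw [mem_ball, dist_eq_norm]
    linarith
  refine ⟨hne1 z hzb, hne0 z hzb, ?_⟩
  have hzc0 : 1 / 2 ≤ ‖riemannZeta c‖ := by
    have h1 := zeta_near_one (s := c) (by rw [hcre]; norm_num)
    have h2 : ‖(1 : ℂ)‖ ≤ ‖riemannZeta c‖ + ‖riemannZeta c - 1‖ := by
      have := norm_sub_le (riemannZeta c) (riemannZeta c - 1)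
      simpa using this
    rw [norm_one] at h2
    linarith
  have h1 := logDeriv_zero_free (g := riemannZeta) (c := c) (r := 7 / 2 - η) (r2 := 7 / 2 - 2 * η)
    (B := 12 * L) (by linarith) (by linarith) (by linarith) (by linarith)
    (by
      intro w hw
      have hd : DifferentiableOn ℂ riemannZeta {1}ᶜ := fun w hw =>
        (differentiableAt_riemannZeta hw).differentiableWithinAt
      exact hd.analyticAt (isOpen_compl_singleton.mem_nhds (hne1 w hw))) hne0
    (by
      intro w hw
      obtain ⟨a1, a2, a3, a4, a5⟩ := hball w hw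
      have h2 := Pool.Agent.H388LH.zeta_growth (s := w) (by linarith) a3
      have h3 : ‖w‖ ≤ 8 + 2 * T := by
        refine (Complex.norm_le_abs_re_add_abs_im w).trans ?_
        rw [abs_of_nonneg (by linarith), abs_of_nonneg (by linarith)]
        linarith
      have h4 : 12 * (8 + 2 * T) ≤ Real.exp (12 * L) := by
        have h5 : Real.exp (12 * L) = T * Real.exp (11 * L) := by
          rw [← hLT, ← Real.exp_add]
          congr 1
          ring
        have h6 : 88 + 1 ≤ Real.exp (11 * L) :=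
          le_trans (by linarith) (Real.add_one_le_exp (11 * L))
        have h7 : 12 * (8 + 2 * T) ≤ 120 * T := by linarith
        have h8 : 120 ≤ Real.exp (11 * L) := by
          have h9 : Real.exp (11 * L) = Real.exp (11 * L / 2) * Real.exp (11 * L / 2) := by
            rw [← Real.exp_add]
            congr 1
            ring
          have h10 : 44 + 1 ≤ Real.exp (11 * L / 2) :=
            le_trans (by linarith) (Real.add_one_le_exp (11 * L / 2))
          rw [h9]
          nlinarith
        rw [h5]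
        nlinarith
      nlinarith [norm_nonneg (riemannZeta c), Real.exp_pos (12 * L)])
    (z := z) (by rw [mem_closedBall, dist_eq_norm]; exact hzc)
  unfold q
  rw [norm_neg]
  refine h1.trans ?_
  have e1 : (7 / 2 - η - (7 / 2 - 2 * η)) = η := by ring
  rw [e1]
  have e2 : 16 * (7 / 2 - η) / η ^ 2 * (12 * L) = (16 * (7 / 2 - η) * 12 * L) / η ^ 2 := by ring
  rw [e2]
  gcongr
  nlinarith

end Pool.Agent.Y179.LD
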