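import Mathlib

/-!
# LD-Z1: the smooth cut-off (Gaussian distribution function) and its Mellin integral
-/

set_option autoImplicit false

namespace Pool.Agent.Y179.LD

open Filter Topology MeasureTheory Complex Set

noncomputable section

/-- the density of a centred Gaussian of variance two -/
def Gd (u : ℝ) : ℝ := Real.exp (-u ^ 2 / 4) / (2 * Real.sqrt Real.pi)

/-- its distribution function -/
def Ph (v : ℝ) : ℝ := ∫ u in Iic v, Gd u

lemma Gd_nonneg (u : ℝ) : 0 ≤ Gd u := by unfold Gd; positivity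

lemma Gd_continuous : Continuous Gd := by unfold Gd; fun_prop

lemma Gd_integrable : Integrable Gd := by
  unfold Gd
  have h := integrable_exp_neg_mul_sq (b := 1 / 4) (by norm_num)
  refine (h.congr (Eventually.of_forall fun x => ?_)).div_const _
  show Real.exp (-(1 / 4) * x ^ 2) = Real.exp (-x ^ 2 / 4)
  congr 1
  ring

lemma integral_Gd : ∫ u, Gd u = 1 := by
  unfold Gd
  rw [integral_div]
  have h := integral_gaussian (1 / 4)
  have h2 : (fun x : ℝ => Real.exp (-x ^ 2 / 4)) = fun x : ℝ => Real.exp (-(1 / 4) * x ^ 2) := by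
    funext x
    congr 1
    ring
  rw [h2, h]
  have h3 : Real.pi / (1 / 4) = 2 ^ 2 * Real.pi := by ring
  rw [h3, Real.sqrt_mul (by norm_num), Real.sqrt_sq (by norm_num)]
  have : 0 < Real.sqrt Real.pi := Real.sqrt_pos.2 Real.pi_pos
  field_simp

lemma Ph_nonneg (v : ℝ) : 0 ≤ Ph v := setIntegral_nonneg measurableSet_Iic fun u _ => Gd_nonneg u

lemma Ph_le_one (v : ℝ) : Ph v ≤ 1 := by
  rw [← integral_Gd]
  exact setIntegral_le_integral Gd_integrable (Eventually.of_forall Gd_nonneg)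

lemma Gd_shift {u v : ℝ} (h : 0 ≤ u * v) : Gd (u + v) ≤ Real.exp (-v ^ 2 / 4) * Gd u := by
  unfold Gd
  rw [← mul_div_assoc, ← Real.exp_add]
  gcongr
  nlinarith

lemma tail_right {v : ℝ} (hv : 0 ≤ v) : ∫ u in Ioi v, Gd u ≤ Real.exp (-v ^ 2 / 4) := by
  have h1 : ∫ u in Ioi v, Gd u = ∫ u in Ioi (0 : ℝ), Gd (u + v) := by
    rw [← integral_indicator measurableSet_Ioi, ← integral_indicator measurableSet_Ioi,
      ← integral_add_right_eq_self _ v]
    congr 1
    funext a
    by_cases ha : 0 < a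
    · rw [indicator_of_mem (show a ∈ Ioi (0 : ℝ) from ha),
        indicator_of_mem (show a + v ∈ Ioi v by simp [ha])]
    · rw [indicator_of_notMem (show a ∉ Ioi (0 : ℝ) from ha),
        indicator_of_notMem (show a + v ∉ Ioi v by simpa using not_lt.1 ha)]
  rw [h1]
  have h2 : ∫ u in Ioi (0 : ℝ), Gd (u + v) ≤ ∫ u in Ioi (0 : ℝ), Real.exp (-v ^ 2 / 4) * Gd u := by
    refine setIntegral_mono_on ?_ ?_ measurableSet_Ioi ?_
    · exact (Gd_integrable.comp_add_right v).integrableOn
    · exact (Gd_integrable.const_mul _).integrableOn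
    · intro u hu
      exact Gd_shift (mul_nonneg (le_of_lt hu) hv)
  refine h2.trans ?_
  rw [integral_const_mul]
  have h3 : ∫ u in Ioi (0 : ℝ), Gd u ≤ 1 := by
    rw [← integral_Gd]
    exact setIntegral_le_integral Gd_integrable (Eventually.of_forall Gd_nonneg)
  exact mul_le_of_le_one_right (Real.exp_nonneg _) h3

lemma one_sub_Ph {v : ℝ} (hv : 0 ≤ v) : 1 - Ph v ≤ Real.exp (-v ^ 2 / 4) := by
  have h : Ph v + ∫ u in Ioi v, Gd u = 1 := by
    unfold Ph
    rw [← integral_Gd]
    have := integral_add_compl (s := Iic v) measurableSet_Iic Gd_integrable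
    rwa [compl_Iic] at this
  have := tail_right hv
  linarith

lemma Ph_neg {v : ℝ} (hv : 0 ≤ v) : Ph (-v) ≤ Real.exp (-v ^ 2 / 4) := by
  have h1 : Ph (-v) = ∫ u in Ioi v, Gd u := by
    unfold Ph
    rw [← integral_comp_neg_Ioi]
    refine setIntegral_congr_fun measurableSet_Ioi fun u _ => ?_
    unfold Gd
    simp
  rw [h1]
  exact tail_right hv

/-- the kernel on the line `re w = 3` -/
def Ek (l y : ℝ) : ℂ := cexp ((3 + y * I) ^ 2 + l * (3 + y * I)) / (3 + y * I)

lemma three_ne (y : ℝ) : (3 + (y : ℂ) * I) ≠ 0 := by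
  intro h
  have := congrArg Complex.re h
  simp at this

lemma three_le (y : ℝ) : 3 ≤ ‖(3 + (y : ℂ) * I)‖ := by
  have := Complex.re_le_norm (3 + (y : ℂ) * I)
  simpa using this

lemma norm_exp_line (l y : ℝ) :
    ‖cexp ((3 + y * I) ^ 2 + l * (3 + y * I))‖ = Real.exp (9 + 3 * l) * Real.exp (-y ^ 2) := by
  rw [Complex.norm_exp, ← Real.exp_add]
  congr 1
  have : ((3 + (y : ℂ) * I) ^ 2 + l * (3 + y * I)) = ((9 + 3 * l - y ^ 2 : ℝ) : ℂ) +
      ((6 * y + l * y : ℝ) : ℂ) * I := by
    push_cast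
    ring_nf
    rw [I_sq]
    ring
  rw [this, Complex.add_re, Complex.ofReal_re, Complex.mul_re, Complex.ofReal_re,
    Complex.ofReal_im, Complex.I_re, Complex.I_im]
  ring

lemma norm_Ek_le (l y : ℝ) : ‖Ek l y‖ ≤ Real.exp (9 + 3 * l) * Real.exp (-y ^ 2) := by
  unfold Ek
  rw [norm_div, norm_exp_line]
  exact div_le_self (by positivity) (by linarith [three_le y])

lemma Ek_continuous (l : ℝ) : Continuous (Ek l) := by
  unfold Ek
  exact Continuous.div (by fun_prop) (by fun_prop) three_ne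

lemma gauss_int : Integrable fun y : ℝ => Real.exp (-y ^ 2) := by
  have h := integrable_exp_neg_mul_sq (b := 1) one_pos
  exact h.congr (Eventually.of_forall fun x => by simp)

lemma gauss_val : ∫ y : ℝ, Real.exp (-y ^ 2) = Real.sqrt Real.pi := by
  have h := integral_gaussian 1
  simpa using h

lemma gauss_le : ∫ y : ℝ, Real.exp (-y ^ 2) ≤ 2 := by
  rw [gauss_val, Real.sqrt_le_left (by norm_num)]
  linarith [Real.pi_lt_four]

lemma Ek_integrable (l : ℝ) : Integrable (Ek l) := by
  refine (gauss_int.const_mul (Real.exp (9 + 3 * l))).mono' (Ek_continuous l).aestronglyMeasurable ?_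
  exact Eventually.of_forall fun y => norm_Ek_le l y

/-- the integrand before integration in the shift -/
def Fk (l y a : ℝ) : ℂ := cexp ((3 + y * I) ^ 2 + (l - a) * (3 + y * I))

lemma Fk_int_a (l y : ℝ) : ∫ a in Ioi (0 : ℝ), Fk l y a = Ek l y := by
  have h1 : ∀ a : ℝ, Fk l y a = cexp ((3 + y * I) ^ 2 + l * (3 + y * I)) *
      cexp (-(3 + y * I) * a) := by
    intro a
    unfold Fk
    rw [← Complex.exp_add]
    congr 1
    ring
  simp_rw [h1]
  rw [integral_const_mul, integral_exp_mul_complex_Ioi (by simp)]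
  unfold Ek
  have := three_ne y
  simp only [ofReal_zero, mul_zero, Complex.exp_zero]
  field_simp

lemma Fk_int_y (l a : ℝ) : ∫ y : ℝ, Fk l y a = ((2 * Real.pi * Gd (l - a) : ℝ) : ℂ) := by
  have h1 : ∀ y : ℝ, Fk l y a = cexp ((-1 : ℂ) * (y : ℂ) ^ 2 + ((6 + (l - a)) * I) * (y : ℂ) +
      (9 + 3 * (l - a))) := by
    intro y
    unfold Fk
    congr 1
    ring_nf
    rw [I_sq]
    ring
  simp_rw [h1]
  rw [integral_cexp_quadratic (by norm_num)]
  have h2 : ((Real.pi : ℂ) / -(-1)) ^ (1 / 2 : ℂ) = ((Real.sqrt Real.pi : ℝ) : ℂ) := by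
    rw [neg_neg, div_one, Real.sqrt_eq_rpow, Complex.ofReal_cpow Real.pi_pos.le]
    norm_num
  rw [h2]
  have h3 : (9 + 3 * ((l : ℂ) - a)) - ((6 + ((l : ℂ) - a)) * I) ^ 2 / (4 * (-1)) =
      ((-(l - a) ^ 2 / 4 : ℝ) : ℂ) := by
    push_cast
    rw [mul_pow, I_sq]
    ring
  rw [h3, ← Complex.ofReal_exp, ← Complex.ofReal_mul]
  congr 1
  unfold Gd
  have h4 : 0 < Real.sqrt Real.pi := Real.sqrt_pos.2 Real.pi_pos
  have h5 : Real.sqrt Real.pi * Real.sqrt Real.pi = Real.pi := Real.mul_self_sqrt Real.pi_pos.le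
  field_simp
  nlinarith

lemma Fk_norm (l y a : ℝ) : ‖Fk l y a‖ = (Real.exp (9 + 3 * l) * Real.exp (-y ^ 2)) *
    Real.exp (-3 * a) := by
  have h := norm_exp_line (l - a) y
  unfold Fk
  push_cast at h
  have e : Real.exp (9 + 3 * (l - a)) = Real.exp (9 + 3 * l) * Real.exp (-3 * a) := by
    rw [← Real.exp_add]
    congr 1
    ring
  rw [h, e]
  ring

theorem integral_Ek (l : ℝ) : ∫ y : ℝ, Ek l y = ((2 * Real.pi * Ph l : ℝ) : ℂ) := by
  have h1 : (fun y : ℝ => Ek l y) = fun y => ∫ a in Ioi (0 : ℝ), Fk l y a := by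
    funext y
    exact (Fk_int_a l y).symm
  rw [h1, integral_integral_swap]
  · simp_rw [Fk_int_y]
    rw [integral_complex_ofReal]
    congr 1
    rw [integral_const_mul]
    congr 1
    unfold Ph
    rw [← integral_indicator measurableSet_Ioi, integral_Iic_eq_integral_Iio,
      ← integral_indicator measurableSet_Iio, ← integral_sub_left_eq_self _ _ l]
    congr 1
    funext a
    by_cases ha : a < l
    · rw [indicator_of_mem (show l - a ∈ Ioi (0 : ℝ) from sub_pos.2 ha),
        indicator_of_mem (show a ∈ Iio l from ha)]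
      simp
    · rw [indicator_of_notMem (show l - a ∉ Ioi (0 : ℝ) from fun h => ha (sub_pos.1 h)),
        indicator_of_notMem (show a ∉ Iio l from ha)]
  · have h2 : Integrable (fun z : ℝ × ℝ => (Real.exp (9 + 3 * l) * Real.exp (-z.1 ^ 2)) *
        Real.exp (-3 * z.2)) (volume.prod (volume.restrict (Ioi 0))) :=
      Integrable.mul_prod (gauss_int.const_mul (Real.exp (9 + 3 * l)))
        (integrableOn_exp_mul_Ioi (by norm_num) 0)
    refine h2.mono' ?_ ?_
    · refine Continuous.aestronglyMeasurable ?_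
      unfold Function.uncurry Fk
      fun_prop
    · exact Eventually.of_forall fun z => (Fk_norm l z.1 z.2).le

end

end Pool.Agent.Y179.LD
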