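import Pool.Agent.Y179.LD.Z1b

/-!
# LD-Z1: shifting the line of integration
-/

set_option autoImplicit false

namespace Pool.Agent.Y179.LD

open Filter Topology MeasureTheory Complex Set

noncomputable section

lemma norm_cexp_quad (l x y : ℝ) :
    ‖cexp (((x : ℂ) + y * I) ^ 2 + l * ((x : ℂ) + y * I))‖ = Real.exp (x ^ 2 - y ^ 2 + l * x) := by
  rw [Complex.norm_exp]
  congr 1
  have : (((x : ℂ) + y * I) ^ 2 + l * ((x : ℂ) + y * I)) = ((x ^ 2 - y ^ 2 + l * x : ℝ) : ℂ) +
      ((2 * x * y + l * y : ℝ) : ℂ) * I := by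
    push_cast
    ring_nf
    rw [I_sq]
    ring
  rw [this, Complex.add_re, Complex.ofReal_re, Complex.mul_re, Complex.ofReal_re,
    Complex.ofReal_im, Complex.I_re, Complex.I_im]
  ring

lemma int_gauss_le {H : ℝ} (hH : 0 ≤ H) : ∫ y in (-H)..H, Real.exp (-y ^ 2) ≤ 2 := by
  rw [intervalIntegral.integral_of_le (by linarith)]
  refine le_trans ?_ gauss_le
  exact setIntegral_le_integral gauss_int (Eventually.of_forall fun y => Real.exp_nonneg _)

theorem contour {f : ℂ → ℂ} {U : Set ℂ} (hU : IsOpen U) (hf : DifferentiableOn ℂ f U)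
    {δ H M l : ℝ} (hδ : 0 < δ) (hδ3 : δ ≤ 3) (hH : 1 ≤ H) (hl : 0 ≤ l)
    (hR : ∀ w : ℂ, -δ ≤ w.re → w.re ≤ 3 → |w.im| ≤ H → w ∈ U ∧ ‖f w‖ ≤ M) :
    ‖(∫ y in (-H)..H, f (3 + y * I) * Ek l y) - f 0 * ∫ y in (-H)..H, Ek l y‖ ≤
      2 * M * (2 * Real.exp (9 - δ * l) / δ) + 2 * M * (12 * Real.exp (9 + 3 * l - H ^ 2)) := by
  have h0 := hR 0 (by simp [hδ.le]) (by simp) (by simp; linarith)
  have hM : 0 ≤ M := (norm_nonneg _).trans h0.2
  set G : ℂ → ℂ := fun w => dslope f 0 w * cexp (w ^ 2 + l * w) with hG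
  have hGd : DifferentiableOn ℂ G U := by
    refine DifferentiableOn.mul ?_ ?_
    · exact (Complex.differentiableOn_dslope (hU.mem_nhds h0.1)).2 hf
    · fun_prop
  have hGn : ∀ w : ℂ, w ≠ 0 → ‖f w‖ ≤ M → ‖G w‖ ≤ 2 * M * (‖cexp (w ^ 2 + l * w)‖ / ‖w‖) := by
    intro w hw hfw
    rw [hG]
    simp only
    rw [dslope_of_ne _ hw, slope_def_field, sub_zero, norm_mul, norm_div]
    have h1 : ‖f w - f 0‖ ≤ 2 * M := (norm_sub_le _ _).trans (by linarith [h0.2])
    have h2 : 0 < ‖w‖ := norm_pos_iff.2 hw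
    calc ‖f w - f 0‖ / ‖w‖ * ‖cexp (w ^ 2 + l * w)‖ = ‖f w - f 0‖ *
          (‖cexp (w ^ 2 + l * w)‖ / ‖w‖) := by ring
      _ ≤ _ := by gcongr
  have hrect := Complex.integral_boundary_rect_eq_zero_of_differentiableOn G ⟨-δ, -H⟩ ⟨3, H⟩
    (hGd.mono (by
      intro w hw
      rw [mem_reProdIm] at hw
      simp only at hw
      rw [uIcc_of_le (by linarith), uIcc_of_le (by linarith)] at hw
      exact (hR w hw.1.1 hw.1.2 (abs_le.2 ⟨hw.2.1, hw.2.2⟩)).1))
  simp only [smul_eq_mul] at hrect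
  have hright : ∀ y : ℝ, G (3 + y * I) = f (3 + y * I) * Ek l y - f 0 * Ek l y := by
    intro y
    rw [hG]
    simp only
    rw [dslope_of_ne _ (three_ne y), slope_def_field, sub_zero]
    unfold Ek
    have := three_ne y
    field_simp
  -- the left side
  have hleft : ‖∫ y in (-H)..H, G (((-δ : ℝ) : ℂ) + y * I)‖ ≤
      2 * M * (2 * Real.exp (9 - δ * l) / δ) := by
    have h1 : ∀ y ∈ Set.Icc (-H) H, ‖G (((-δ : ℝ) : ℂ) + y * I)‖ ≤
        2 * M * (Real.exp (9 - δ * l) / δ) * Real.exp (-y ^ 2) := by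
      intro y hy
      have hre : (((-δ : ℝ) : ℂ) + y * I).re = -δ := by simp
      have him : (((-δ : ℝ) : ℂ) + y * I).im = y := by simp
      have hne : (((-δ : ℝ) : ℂ) + y * I) ≠ 0 := by
        intro h
        rw [h] at hre
        simp at hre
        linarith
      have hn : δ ≤ ‖(((-δ : ℝ) : ℂ) + y * I)‖ := by
        have := Complex.abs_re_le_norm (((-δ : ℝ) : ℂ) + y * I)
        rw [hre, abs_neg, abs_of_pos hδ] at this
        exact this
      have h2 := hGn _ hne (hR _ (by rw [hre]) (by rw [hre]; linarith)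
        (by rw [him]; exact abs_le.2 ⟨hy.1, hy.2⟩)).2
      rw [norm_cexp_quad] at h2
      refine h2.trans ?_
      rw [mul_assoc (2 * M), div_mul_eq_mul_div, ← Real.exp_add]
      have h3 : Real.exp ((-δ) ^ 2 - y ^ 2 + l * -δ) ≤ Real.exp (9 - δ * l + -y ^ 2) := by
        apply Real.exp_le_exp.2
        nlinarith
      gcongr
    have h4 := intervalIntegral.norm_integral_le_of_norm_le (a := -H) (b := H) (by linarith)
      (f := fun y : ℝ => G (((-δ : ℝ) : ℂ) + y * I))
      (g := fun y => 2 * M * (Real.exp (9 - δ * l) / δ) * Real.exp (-y ^ 2)) (μ := volume)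
      (Eventually.of_forall fun y hy => h1 y ⟨hy.1.le, hy.2⟩)
      ((by fun_prop : Continuous fun y : ℝ =>
        2 * M * (Real.exp (9 - δ * l) / δ) * Real.exp (-y ^ 2)).intervalIntegrable _ _)
    refine h4.trans ?_
    rw [intervalIntegral.integral_const_mul]
    have h5 := int_gauss_le (H := H) (by linarith)
    calc 2 * M * (Real.exp (9 - δ * l) / δ) * ∫ y in (-H)..H, Real.exp (-y ^ 2)
        ≤ 2 * M * (Real.exp (9 - δ * l) / δ) * 2 := by gcongr
      _ = _ := by ring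
  -- the horizontal sides
  have hhor : ∀ Y : ℝ, |Y| = H → ‖∫ x in (-δ)..3, G ((x : ℂ) + Y * I)‖ ≤
      2 * M * (6 * Real.exp (9 + 3 * l - H ^ 2)) := by
    intro Y hY
    have hY2 : Y ^ 2 = H ^ 2 := by rw [← sq_abs, hY]
    have h1 : ∀ x ∈ Set.uIoc (-δ) 3, ‖G ((x : ℂ) + Y * I)‖ ≤
        2 * M * Real.exp (9 + 3 * l - H ^ 2) := by
      intro x hx
      rw [uIoc_of_le (by linarith)] at hx
      have hre : ((x : ℂ) + Y * I).re = x := by simp
      have him : ((x : ℂ) + Y * I).im = Y := by simp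
      have hn : 1 ≤ ‖((x : ℂ) + Y * I)‖ := by
        have := Complex.abs_im_le_norm ((x : ℂ) + Y * I)
        rw [him, hY] at this
        linarith
      have hne : ((x : ℂ) + Y * I) ≠ 0 := by
        intro h
        rw [h, norm_zero] at hn
        linarith
      have h2 := hGn _ hne (hR _ (by rw [hre]; exact hx.1.le) (by rw [hre]; exact hx.2)
        (by rw [him, hY])).2
      rw [norm_cexp_quad] at h2
      refine h2.trans ?_
      have h3 : Real.exp (x ^ 2 - Y ^ 2 + l * x) / ‖((x : ℂ) + Y * I)‖ ≤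
          Real.exp (x ^ 2 - Y ^ 2 + l * x) := div_le_self (Real.exp_nonneg _) hn
      have h4 : Real.exp (x ^ 2 - Y ^ 2 + l * x) ≤ Real.exp (9 + 3 * l - H ^ 2) := by
        apply Real.exp_le_exp.2
        rw [hY2]
        nlinarith [hx.1, hx.2]
      have h5 := h3.trans h4
      gcongr
    have h6 := intervalIntegral.norm_integral_le_of_norm_le_const h1
    refine h6.trans ?_
    rw [abs_of_pos (by linarith)]
    have : 0 ≤ 2 * M * Real.exp (9 + 3 * l - H ^ 2) := by positivity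
    nlinarith
  have e1 : ∫ y in (-H)..H, G (3 + y * I) =
      (∫ y in (-H)..H, f (3 + y * I) * Ek l y) - f 0 * ∫ y in (-H)..H, Ek l y := by
    simp_rw [hright]
    have hcont : IntervalIntegrable (fun y : ℝ => f (3 + y * I) * Ek l y) volume (-H) H := by
      refine ContinuousOn.intervalIntegrable ?_
      rw [uIcc_of_le (by linarith)]
      refine ContinuousOn.mul ?_ (Ek_continuous l).continuousOn
      refine hf.continuousOn.comp (by fun_prop) ?_
      intro y hy
      exact (hR _ (by simp; linarith) (by simp) (by simpa using abs_le.2 ⟨hy.1, hy.2⟩)).1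
    have hcont2 : IntervalIntegrable (fun y : ℝ => f 0 * Ek l y) volume (-H) H :=
      (continuous_const.mul (Ek_continuous l)).intervalIntegrable _ _
    rw [intervalIntegral.integral_sub hcont hcont2, intervalIntegral.integral_const_mul]
  rw [← e1]
  have b1 := hhor (-H) (by rw [abs_neg, abs_of_nonneg (by linarith)])
  have b2 := hhor H (abs_of_nonneg (by linarith))
  have e2 : ∫ y in (-H)..H, G (3 + y * I) = (∫ y in (-H)..H, G (((-δ : ℝ) : ℂ) + y * I)) +
      I * ((∫ x in (-δ)..3, G ((x : ℂ) + ((-H : ℝ) : ℂ) * I)) -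
        ∫ x in (-δ)..3, G ((x : ℂ) + H * I)) := by
    have h3 : (3 : ℂ) = ((3 : ℝ) : ℂ) := by norm_num
    rw [h3]
    have hI : I * I = -1 := I_mul_I
    linear_combination (-I) * hrect + (-(∫ y in (-H)..H, G (((3 : ℝ) : ℂ) + y * I)) +
      ∫ y in (-H)..H, G (((-δ : ℝ) : ℂ) + y * I)) * (-hI)
  rw [e2]
  refine (norm_add_le _ _).trans ?_
  rw [norm_mul, Complex.norm_I, one_mul]
  have b3 := norm_sub_le (∫ x in (-δ)..3, G ((x : ℂ) + ((-H : ℝ) : ℂ) * I))
    (∫ x in (-δ)..3, G ((x : ℂ) + H * I))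
  linarith

end

end Pool.Agent.Y179.LD
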