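import Pool.Agent.Y179.LD.Z1c

/-!
# LD-Z1: the Dirichlet series on the right line
-/

set_option autoImplicit false

namespace Pool.Agent.Y179.LD

open Filter Topology MeasureTheory Complex Set
open ArithmeticFunction (vonMangoldt)

noncomputable section

/-- `-ζ'/ζ` -/
def q (s : ℂ) : ℂ := -(deriv riemannZeta s / riemannZeta s)

/-- the terms of the series -/
def am (s : ℂ) (n : ℕ) : ℂ := (vonMangoldt n : ℂ) * (n : ℂ) ^ (-s)

lemma am_eq_term (s : ℂ) (n : ℕ) :
    LSeries.term (fun n => (vonMangoldt n : ℂ)) s n = am s n := by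
  unfold am
  rcases eq_or_ne n 0 with rfl | hn
  · simp
  · rw [LSeries.term_of_ne_zero hn, Complex.cpow_neg, div_eq_mul_inv]

lemma q_series {s : ℂ} (hs : 1 < s.re) : HasSum (am s) (q s) := by
  have h1 := (ArithmeticFunction.LSeriesSummable_vonMangoldt hs).LSeriesHasSum
  rw [ArithmeticFunction.LSeries_vonMangoldt_eq_deriv_riemannZeta_div hs] at h1
  have h2 : q s = -deriv riemannZeta s / riemannZeta s := by
    unfold q
    rw [neg_div]
  rw [h2]
  have h3 : (LSeries.term (fun n => (vonMangoldt n : ℂ)) s) = am s := by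
    funext n
    exact am_eq_term s n
  rw [← h3]
  exact h1

lemma norm_am (s : ℂ) {n : ℕ} (hn : n ≠ 0) : ‖am s n‖ = vonMangoldt n * (n : ℝ) ^ (-s.re) := by
  unfold am
  rw [norm_mul, Complex.norm_real, Real.norm_of_nonneg ArithmeticFunction.vonMangoldt_nonneg,
    Complex.norm_natCast_cpow_of_pos (Nat.pos_of_ne_zero hn), neg_re]

lemma am_zero (s : ℂ) : am s 0 = 0 := by simp [am]

lemma summable3 : Summable fun n : ℕ => ‖am 3 n‖ := (q_series (s := 3) (by norm_num)).summable.norm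

/-- the bound for `ζ'/ζ` to the right of `3` -/
def C3 : ℝ := ∑' n : ℕ, ‖am 3 n‖

lemma norm_am_le {s s' : ℂ} (h : s'.re ≤ s.re) (n : ℕ) : ‖am s n‖ ≤ ‖am s' n‖ := by
  rcases eq_or_ne n 0 with rfl | hn
  · rw [am_zero, am_zero]
  · rw [norm_am s hn, norm_am s' hn]
    have h1 : (1 : ℝ) ≤ n := by exact_mod_cast Nat.pos_of_ne_zero hn
    have h2 := ArithmeticFunction.vonMangoldt_nonneg (n := n)
    have h3 : (n : ℝ) ^ (-s.re) ≤ (n : ℝ) ^ (-s'.re) :=
      Real.rpow_le_rpow_of_exponent_le h1 (by linarith)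
    gcongr

lemma norm_q_le {s : ℂ} (hs : 3 ≤ s.re) : ‖q s‖ ≤ C3 := by
  have h1 := q_series (s := s) (by linarith)
  refine h1.norm_le_of_bounded summable3.hasSum fun n => ?_
  exact norm_am_le (by simpa using hs) n

lemma C3_nonneg : 0 ≤ C3 := tsum_nonneg fun n => norm_nonneg _

lemma Ek_shift (l y : ℝ) {n : ℕ} (hn : n ≠ 0) :
    (n : ℂ) ^ (-(3 + (y : ℂ) * I)) * Ek l y = Ek (l - Real.log n) y := by
  unfold Ek
  rw [Complex.cpow_def_of_ne_zero (by exact_mod_cast hn), ← mul_div_assoc, ← Complex.exp_add]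
  congr 2
  rw [← Complex.natCast_log]
  push_cast
  ring

lemma am_add (s w : ℂ) (n : ℕ) : am (s + w) n = am s n * (n : ℂ) ^ (-w) := by
  unfold am
  rcases eq_or_ne n 0 with rfl | hn
  · simp
  · rw [neg_add, Complex.cpow_add _ _ (by exact_mod_cast hn)]
    ring

theorem line_series {s : ℂ} (hs : 0 ≤ s.re) (l : ℝ) :
    HasSum (fun n : ℕ => am s n * ((2 * Real.pi * Ph (l - Real.log n) : ℝ) : ℂ))
      (∫ y : ℝ, q (s + (3 + y * I)) * Ek l y) := by
  have h1 : ∀ y : ℝ, q (s + (3 + y * I)) * Ek l y = ∑' n : ℕ, am s n * Ek (l - Real.log n) y := by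
    intro y
    have h2 := (q_series (s := s + (3 + y * I)) (by simp; linarith)).mul_right (Ek l y)
    rw [← h2.tsum_eq]
    congr 1
    funext n
    rcases eq_or_ne n 0 with rfl | hn
    · rw [am_zero, am_zero, zero_mul, zero_mul]
    · rw [am_add, mul_assoc, Ek_shift l y hn]
  simp_rw [h1]
  have h3 : ∀ n : ℕ, am s n * ((2 * Real.pi * Ph (l - Real.log n) : ℝ) : ℂ) =
      ∫ y : ℝ, am s n * Ek (l - Real.log n) y := by
    intro n
    rw [integral_const_mul, integral_Ek]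
  simp_rw [h3]
  refine hasSum_integral_of_summable_integral_norm
    (fun n => (Ek_integrable _).const_mul _) ?_
  refine Summable.of_nonneg_of_le (fun n => integral_nonneg fun y => norm_nonneg _) (fun n => ?_)
    (summable3.mul_left (2 * Real.exp (9 + 3 * l)))
  rcases eq_or_ne n 0 with rfl | hn
  · simp [am_zero]
  simp_rw [norm_mul]
  rw [integral_const_mul]
  have hn1 : (0 : ℝ) < n := by exact_mod_cast Nat.pos_of_ne_zero hn
  have h4 : ∫ y : ℝ, ‖Ek (l - Real.log n) y‖ ≤ Real.exp (9 + 3 * (l - Real.log n)) * 2 := by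
    calc ∫ y : ℝ, ‖Ek (l - Real.log n) y‖ ≤ ∫ y : ℝ, Real.exp (9 + 3 * (l - Real.log n)) *
          Real.exp (-y ^ 2) :=
        integral_mono (Ek_integrable _).norm (gauss_int.const_mul _) fun y => norm_Ek_le _ y
      _ ≤ _ := by
        rw [integral_const_mul]
        exact mul_le_mul_of_nonneg_left gauss_le (Real.exp_nonneg _)
  have h5 : Real.exp (9 + 3 * (l - Real.log n)) = Real.exp (9 + 3 * l) * (n : ℝ) ^ (-(3 : ℝ)) := by
    rw [Real.rpow_def_of_pos hn1, ← Real.exp_add]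
    congr 1
    ring
  have h6 : ‖am s n‖ * (n : ℝ) ^ (-(3 : ℝ)) ≤ ‖am 3 n‖ := by
    rw [norm_am s hn, norm_am 3 hn]
    have h7 := ArithmeticFunction.vonMangoldt_nonneg (n := n)
    have h8 : (n : ℝ) ^ (-s.re) ≤ 1 := by
      have : (1 : ℝ) ≤ n := by exact_mod_cast Nat.pos_of_ne_zero hn
      exact Real.rpow_le_one_of_one_le_of_nonpos this (by linarith)
    have h9 : (3 : ℂ).re = 3 := by norm_num
    rw [h9]
    calc vonMangoldt n * (n : ℝ) ^ (-s.re) * (n : ℝ) ^ (-(3 : ℝ)) ≤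
          vonMangoldt n * 1 * (n : ℝ) ^ (-(3 : ℝ)) := by gcongr
      _ = _ := by ring
  calc ‖am s n‖ * ∫ y : ℝ, ‖Ek (l - Real.log n) y‖ ≤
        ‖am s n‖ * (Real.exp (9 + 3 * (l - Real.log n)) * 2) := by gcongr
    _ = 2 * Real.exp (9 + 3 * l) * (‖am s n‖ * (n : ℝ) ^ (-(3 : ℝ))) := by rw [h5]; ring
    _ ≤ _ := by gcongr

lemma gauss2_int : Integrable fun y : ℝ => Real.exp (-y ^ 2 / 2) := by
  have h := integrable_exp_neg_mul_sq (b := 1 / 2) (by norm_num)
  refine h.congr (Eventually.of_forall fun x => ?_)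
  show Real.exp (-(1 / 2) * x ^ 2) = Real.exp (-x ^ 2 / 2)
  congr 1
  ring

lemma gauss2_le : ∫ y : ℝ, Real.exp (-y ^ 2 / 2) ≤ 3 := by
  have h := integral_gaussian (1 / 2)
  have h2 : (fun x : ℝ => Real.exp (-x ^ 2 / 2)) = fun x : ℝ => Real.exp (-(1 / 2) * x ^ 2) := by
    funext x
    congr 1
    ring
  rw [h2, h, Real.sqrt_le_left (by norm_num)]
  linarith [Real.pi_lt_four]

theorem tail_int {g : ℝ → ℂ} (hg : Continuous g) {C : ℝ} (hC : ∀ y, ‖g y‖ ≤ C) (l : ℝ) {H : ℝ}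
    (hH : 0 ≤ H) : ‖(∫ y : ℝ, g y * Ek l y) - ∫ y in (-H)..H, g y * Ek l y‖ ≤
      C * (3 * Real.exp (9 + 3 * l - H ^ 2 / 2)) := by
  have hC0 : 0 ≤ C := (norm_nonneg _).trans (hC 0)
  have hint : Integrable fun y => g y * Ek l y :=
    (Ek_integrable l).bdd_mul hg.aestronglyMeasurable (Eventually.of_forall hC)
  rw [intervalIntegral.integral_of_le (by linarith)]
  have h1 := integral_add_compl (s := Ioc (-H) H) measurableSet_Ioc hint
  have h2 : (∫ y : ℝ, g y * Ek l y) - ∫ y in Ioc (-H) H, g y * Ek l y =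
      ∫ y in (Ioc (-H) H)ᶜ, g y * Ek l y := by
    rw [← h1]
    ring
  rw [h2]
  have h3 : ‖∫ y in (Ioc (-H) H)ᶜ, g y * Ek l y‖ ≤ ∫ y in (Ioc (-H) H)ᶜ,
      C * Real.exp (9 + 3 * l - H ^ 2 / 2) * Real.exp (-y ^ 2 / 2) := by
    refine norm_integral_le_of_norm_le (gauss2_int.const_mul _).integrableOn ?_
    rw [ae_restrict_iff' measurableSet_Ioc.compl]
    refine Eventually.of_forall fun y hy => ?_
    rw [norm_mul]
    have h4 : H ^ 2 ≤ y ^ 2 := by
      rw [mem_compl_iff, mem_Ioc, not_and_or, not_lt, not_le] at hy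
      rcases hy with h | h
      · nlinarith
      · nlinarith
    have h5 : ‖Ek l y‖ ≤ Real.exp (9 + 3 * l - H ^ 2 / 2) * Real.exp (-y ^ 2 / 2) := by
      refine (norm_Ek_le l y).trans ?_
      rw [← Real.exp_add, ← Real.exp_add]
      apply Real.exp_le_exp.2
      linarith
    calc ‖g y‖ * ‖Ek l y‖ ≤ C * (Real.exp (9 + 3 * l - H ^ 2 / 2) * Real.exp (-y ^ 2 / 2)) := by
          gcongr
          exact hC y
      _ = _ := by ring
  refine h3.trans ?_
  have h6 : ∫ y in (Ioc (-H) H)ᶜ, C * Real.exp (9 + 3 * l - H ^ 2 / 2) * Real.exp (-y ^ 2 / 2) ≤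
      ∫ y : ℝ, C * Real.exp (9 + 3 * l - H ^ 2 / 2) * Real.exp (-y ^ 2 / 2) :=
    setIntegral_le_integral (gauss2_int.const_mul _) (Eventually.of_forall fun y => by positivity)
  refine h6.trans ?_
  rw [integral_const_mul]
  calc C * Real.exp (9 + 3 * l - H ^ 2 / 2) * ∫ y : ℝ, Real.exp (-y ^ 2 / 2) ≤
        C * Real.exp (9 + 3 * l - H ^ 2 / 2) * 3 := by
        have := gauss2_le
        gcongr
    _ = _ := by ring

end

end Pool.Agent.Y179.LD
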