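import Pool.Agent.Y179.LD.Z1d

/-!
# LD-Z1: `-ζ'/ζ` is near the smoothed sum over the prime powers
-/

set_option autoImplicit false

namespace Pool.Agent.Y179.LD

open Filter Topology MeasureTheory Complex Set
open ArithmeticFunction (vonMangoldt)

noncomputable section

lemma q_diff {z : ℂ} (h1 : z ≠ 1) (h0 : riemannZeta z ≠ 0) : DifferentiableAt ℂ q z := by
  have hd : DifferentiableOn ℂ riemannZeta {1}ᶜ := fun w hw =>
    (differentiableAt_riemannZeta hw).differentiableWithinAt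
  have hd2 := hd.deriv isOpen_compl_singleton
  have h2 : DifferentiableAt ℂ (deriv riemannZeta) z :=
    hd2.differentiableAt (isOpen_compl_singleton.mem_nhds h1)
  unfold q
  exact (h2.div (differentiableAt_riemannZeta h1) h0).neg

lemma q_diff_right {z : ℂ} (hz : 1 < z.re) : DifferentiableAt ℂ q z := by
  refine q_diff ?_ (riemannZeta_ne_zero_of_one_lt_re hz)
  rintro rfl
  simp at hz

theorem approx {s : ℂ} (hs : 0 ≤ s.re) {U : Set ℂ} (hU : IsOpen U)
    (hq : DifferentiableOn ℂ (fun w => q (s + w)) U) {δ H M l : ℝ} (hδ : 0 < δ) (hδ3 : δ ≤ 3)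
    (hH : 1 ≤ H) (hl : 0 ≤ l) (hCM : C3 ≤ M)
    (hR : ∀ w : ℂ, -δ ≤ w.re → w.re ≤ 3 → |w.im| ≤ H → w ∈ U ∧ ‖q (s + w)‖ ≤ M) :
    ‖q s - ∑' n : ℕ, am s n * ((Ph (l - Real.log n) : ℝ) : ℂ)‖ ≤
      M * (Real.exp (-l ^ 2 / 4) + 4 * Real.exp (9 - δ * l) / δ +
        24 * Real.exp (9 + 3 * l - H ^ 2) + 6 * Real.exp (9 + 3 * l - H ^ 2 / 2)) := by
  have hM : 0 ≤ M := C3_nonneg.trans hCM
  have h0 := (hR 0 (by simp [hδ.le]) (by simp) (by simp; linarith)).2
  rw [add_zero] at h0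
  have k1 := contour hU hq hδ hδ3 hH hl hR
  simp only [add_zero] at k1
  have hg : Continuous fun y : ℝ => q (s + (3 + y * I)) := by
    rw [continuous_iff_continuousAt]
    intro y
    have h1 : ContinuousAt q (s + (3 + y * I)) := (q_diff_right (by simp; linarith)).continuousAt
    exact h1.comp (f := fun y : ℝ => s + (3 + (y : ℂ) * I)) (by fun_prop)
  have k2 := tail_int hg (C := M) (fun y => (norm_q_le (by simp; linarith)).trans hCM) l
    (H := H) (by linarith)
  have k3 := tail_int (g := fun _ => 1) continuous_const (C := 1) (fun y => by simp) l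
    (H := H) (by linarith)
  simp only [one_mul] at k3
  have k4 := (line_series hs l).tsum_eq
  rw [integral_Ek] at k3
  have k5 : ∑' n : ℕ, am s n * ((2 * Real.pi * Ph (l - Real.log n) : ℝ) : ℂ) =
      2 * Real.pi * ∑' n : ℕ, am s n * ((Ph (l - Real.log n) : ℝ) : ℂ) := by
    rw [← tsum_mul_left]
    congr 1
    funext n
    push_cast
    ring
  rw [k5] at k4
  set S := ∑' n : ℕ, am s n * ((Ph (l - Real.log n) : ℝ) : ℂ) with hS
  rw [← k4] at k2
  set A := ∫ y in (-H)..H, q (s + (3 + y * I)) * Ek l y with hA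
  set B := ∫ y in (-H)..H, Ek l y with hB
  have k6 : (2 * Real.pi : ℂ) * (q s - S) = 2 * Real.pi * q s * ((1 - Ph l : ℝ) : ℂ) +
      q s * (((2 * Real.pi * Ph l : ℝ) : ℂ) - B) - (A - q s * B) - (2 * Real.pi * S - A) := by
    push_cast
    ring
  have k7 : ‖(2 * Real.pi : ℂ) * (q s - S)‖ ≤ 2 * Real.pi * M * Real.exp (-l ^ 2 / 4) +
      M * (3 * Real.exp (9 + 3 * l - H ^ 2 / 2)) +
      (2 * M * (2 * Real.exp (9 - δ * l) / δ) + 2 * M * (12 * Real.exp (9 + 3 * l - H ^ 2))) +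
      M * (3 * Real.exp (9 + 3 * l - H ^ 2 / 2)) := by
    rw [k6]
    refine (norm_sub_le _ _).trans (add_le_add ?_ k2)
    refine (norm_sub_le _ _).trans (add_le_add ?_ k1)
    refine (norm_add_le _ _).trans (add_le_add ?_ ?_)
    · rw [norm_mul, norm_mul, norm_mul, Complex.norm_real, Complex.norm_real,
        Real.norm_of_nonneg Real.pi_pos.le, Real.norm_of_nonneg (by linarith [Ph_le_one l])]
      have h2 : ‖(2 : ℂ)‖ = 2 := by norm_num
      rw [h2]
      have hPl := one_sub_Ph hl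
      have hPl0 : 0 ≤ 1 - Ph l := by linarith [Ph_le_one l]
      have := Real.pi_pos
      gcongr
    · rw [norm_mul]
      gcongr
  rw [norm_mul, norm_mul, Complex.norm_real, Real.norm_of_nonneg Real.pi_pos.le] at k7
  have h2 : ‖(2 : ℂ)‖ = 2 := by norm_num
  rw [h2] at k7
  have hpi := Real.pi_gt_three
  have hpi0 : 0 < 2 * Real.pi := by positivity
  rw [← mul_le_mul_iff_right₀ hpi0]
  refine k7.trans ?_
  have e1 : 0 ≤ Real.exp (-l ^ 2 / 4) := Real.exp_nonneg _
  have e2 : 0 ≤ M * (4 * Real.exp (9 - δ * l) / δ) := by positivity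
  have e3 : 0 ≤ M * (24 * Real.exp (9 + 3 * l - H ^ 2)) := by positivity
  have e4 : 0 ≤ M * (6 * Real.exp (9 + 3 * l - H ^ 2 / 2)) := by positivity
  have e5 : 2 * M * (2 * Real.exp (9 - δ * l) / δ) = M * (4 * Real.exp (9 - δ * l) / δ) := by ring
  rw [e5]
  nlinarith

theorem trunc {s : ℂ} (hs : 0 ≤ s.re) {l : ℝ} {N : ℕ} (hN : 1 ≤ N)
    (h : ∀ n : ℕ, N < n → 2 * l ≤ Real.log n ∧ 64 ≤ Real.log n) :
    ‖∑' n : ℕ, am s n * ((Ph (l - Real.log n) : ℝ) : ℂ) -
      ∑ n ∈ Finset.Icc 2 N, am s n * ((Ph (l - Real.log n) : ℝ) : ℂ)‖ ≤ 2 / N := by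
  have hN0 : (0 : ℝ) < N := by exact_mod_cast hN
  set g : ℕ → ℂ := fun n => am s n * ((Ph (l - Real.log n) : ℝ) : ℂ) with hg
  have h1 : Summable g := by
    have h2 := (line_series hs l).summable.mul_left (((2 * Real.pi : ℝ) : ℂ)⁻¹)
    refine h2.congr fun n => ?_
    rw [hg]
    simp only
    have : ((2 * Real.pi : ℝ) : ℂ) ≠ 0 := by
      exact_mod_cast (by positivity : (2 * Real.pi : ℝ) ≠ 0)
    push_cast at this ⊢
    field_simp
  have h3 : HasSum (fun n => if n ∈ Finset.Icc 2 N then g n else 0) (∑ n ∈ Finset.Icc 2 N, g n) := by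
    have : HasSum (fun n => if n ∈ Finset.Icc 2 N then g n else 0)
        (∑ n ∈ Finset.Icc 2 N, if n ∈ Finset.Icc 2 N then g n else 0) :=
      hasSum_sum_of_ne_finset_zero (fun n hn => by simp [hn])
    rwa [Finset.sum_congr rfl fun n hn => if_pos hn] at this
  have h4 := h1.hasSum.sub h3
  have h5 := hasSum_zeta_two.mul_left (1 / (N : ℝ))
  have h6 : 1 / (N : ℝ) * (Real.pi ^ 2 / 6) ≤ 2 / N := by
    have : Real.pi ^ 2 / 6 ≤ 2 := by
      have := Real.pi_lt_d2
      have := Real.pi_pos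
      nlinarith
    calc 1 / (N : ℝ) * (Real.pi ^ 2 / 6) ≤ 1 / (N : ℝ) * 2 := by gcongr
      _ = _ := by ring
  refine (h4.norm_le_of_bounded h5 fun n => ?_).trans h6
  by_cases hn : n ∈ Finset.Icc 2 N
  · rw [if_pos hn, sub_self, norm_zero]
    positivity
  rw [if_neg hn, sub_zero]
  rcases Nat.lt_or_ge N n with hNn | hNn
  · obtain ⟨a1, a2⟩ := h n hNn
    have hn0 : n ≠ 0 := by omega
    have hnp : (0 : ℝ) < n := by exact_mod_cast Nat.pos_of_ne_zero hn0
    rw [hg]
    simp only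
    rw [norm_mul, norm_am s hn0, Complex.norm_real, Real.norm_of_nonneg (Ph_nonneg _)]
    have b1 : Ph (l - Real.log n) ≤ (n : ℝ) ^ (-(4 : ℝ)) := by
      have h7 := Ph_neg (v := Real.log n - l) (by linarith)
      rw [neg_sub] at h7
      refine h7.trans ?_
      rw [Real.rpow_def_of_pos hnp]
      apply Real.exp_le_exp.2
      nlinarith
    have b2 : vonMangoldt n ≤ n :=
      ArithmeticFunction.vonMangoldt_le_log.trans (Real.log_le_self hnp.le)
    have b3 : (n : ℝ) ^ (-s.re) ≤ 1 := by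
      have : (1 : ℝ) ≤ n := by exact_mod_cast Nat.pos_of_ne_zero hn0
      exact Real.rpow_le_one_of_one_le_of_nonpos this (by linarith)
    have b4 := ArithmeticFunction.vonMangoldt_nonneg (n := n)
    calc vonMangoldt n * (n : ℝ) ^ (-s.re) * Ph (l - Real.log n) ≤
          n * 1 * (n : ℝ) ^ (-(4 : ℝ)) := by
          have := Ph_nonneg (l - Real.log n)
          gcongr
      _ = 1 / (n : ℝ) * (1 / (n : ℝ) ^ 2) := by
        rw [Real.rpow_neg hnp.le, show (4 : ℝ) = ((4 : ℕ) : ℝ) by norm_num, Real.rpow_natCast]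
        field_simp
      _ ≤ 1 / (N : ℝ) * (1 / (n : ℝ) ^ 2) := by
        have : (N : ℝ) ≤ n := by exact_mod_cast hNn.le
        gcongr
  · have hn1 : n = 0 ∨ n = 1 := by
      rw [Finset.mem_Icc] at hn
      omega
    rw [hg]
    simp only
    rcases hn1 with rfl | rfl
    · rw [am_zero, zero_mul, norm_zero]
      positivity
    · have : am s 1 = 0 := by simp [am]
      rw [this, zero_mul, norm_zero]
      positivity

end

end Pool.Agent.Y179.LD
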