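import Pool.Agent.Y179.LD.Z1a

/-!
# LD-Z1: asymptotic conditions and the bound for one height
-/

set_option autoImplicit false

namespace Pool.Agent.Y179.LD

open Filter Topology Complex Set Metric
open ArithmeticFunction (vonMangoldt)

noncomputable section

lemma decay (p : ℝ) {c r : ℝ} (hc : 0 < c) (hr : 0 < r) :
    Tendsto (fun L : ℝ => L ^ p * Real.exp (-c * L ^ r)) atTop (𝓝 0) := by
  have h1 := (tendsto_rpow_mul_exp_neg_mul_atTop_nhds_zero (p / r) c hc).comp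
    (tendsto_rpow_atTop hr)
  refine h1.congr' ?_
  filter_upwards [eventually_gt_atTop 0] with L hL
  simp only [Function.comp]
  rw [← Real.rpow_mul hL.le, mul_div_cancel₀ _ hr.ne']

lemma decay' (K p : ℝ) {c r ε : ℝ} (hc : 0 < c) (hr : 0 < r) (hε : 0 < ε) :
    ∀ᶠ L : ℝ in atTop, K * (L ^ p * Real.exp (-c * L ^ r)) ≤ ε := by
  have h1 := (decay p hc hr).const_mul K
  rw [mul_zero] at h1
  exact (h1.eventually_lt_const hε).mono fun L h => h.le

/-- the asymptotic conditions -/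
structure Cond (e D L : ℝ) : Prop where
  c0 : 64 ≤ L
  c1 : 4 * D * Real.log L < L ^ e
  c2 : L ^ (e - 1) ≤ 1 / 8
  c3 : (10752 + C3) * (L ^ (3 : ℝ) * Real.exp (-(1 / 4) * L ^ (2 - e))) ≤ 1 / 100
  c4 : (10752 + C3) * (8 * Real.exp 9) * (L ^ (4 - e) * Real.exp (-(1 / 2) * L ^ (e / 2))) ≤ 1 / 100
  c5 : 3 * L ^ (1 - e / 2) ≤ L ^ 2 / 16
  c6 : (10752 + C3) * (30 * Real.exp 9) * (L ^ (3 : ℝ) * Real.exp (-(1 / 16) * L ^ (2 : ℝ))) ≤ 1 / 100
  c7 : 2 * L ^ (1 - e / 2) ≤ L ^ (1 - e / 3)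
  c8 : 64 ≤ L ^ (1 - e / 3)
  c9 : 2 * L ^ (1 - 2 * e / 3) ≤ L ^ (1 - e / 2)
  c10 : 1 * (L ^ (2 : ℝ) * Real.exp (-(1 / 16) * L ^ (2 - e))) ≤ 1

lemma ratio {a b : ℝ} (h : a < b) (K : ℝ) : ∀ᶠ L : ℝ in atTop, K * L ^ a ≤ L ^ b := by
  have h1 : Tendsto (fun L : ℝ => L ^ (b - a)) atTop atTop := tendsto_rpow_atTop (by linarith)
  filter_upwards [h1.eventually_ge_atTop K, eventually_gt_atTop 0] with L h2 h3
  have h4 : L ^ b = L ^ (b - a) * L ^ a := by
    rw [← Real.rpow_add h3]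
    congr 1
    ring
  rw [h4]
  exact mul_le_mul_of_nonneg_right h2 (Real.rpow_nonneg h3.le _)

lemma cond_eventually {e D : ℝ} (he : 0 < e) (he1 : e < 1) : ∀ᶠ L : ℝ in atTop, Cond e D L := by
  have e1 : ∀ᶠ L : ℝ in atTop, 4 * D * Real.log L < L ^ e := by
    have h1 := (isLittleO_log_rpow_atTop he).const_mul_left (4 * D)
    have h2 := h1.bound (show (0 : ℝ) < 1 / 2 by norm_num)
    filter_upwards [h2, eventually_gt_atTop 0] with L h3 h4
    have h5 : 0 < L ^ e := Real.rpow_pos_of_pos h4 e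
    rw [Real.norm_eq_abs, Real.norm_of_nonneg h5.le] at h3
    have := le_abs_self (4 * D * Real.log L)
    linarith
  have e2 : ∀ᶠ L : ℝ in atTop, L ^ (e - 1) ≤ 1 / 8 := by
    have h1 : Tendsto (fun L : ℝ => L ^ (-(1 - e))) atTop (𝓝 0) :=
      tendsto_rpow_neg_atTop (by linarith)
    filter_upwards [h1.eventually_lt_const (show (0 : ℝ) < 1 / 8 by norm_num)] with L h2
    rw [neg_sub] at h2
    exact h2.le
  have e5 : ∀ᶠ L : ℝ in atTop, 3 * L ^ (1 - e / 2) ≤ L ^ 2 / 16 := by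
    filter_upwards [ratio (a := 1 - e / 2) (b := 2) (by linarith) 48] with L h
    rw [Real.rpow_two] at h
    linarith
  filter_upwards [eventually_ge_atTop 64, e1, e2,
    decay' (10752 + C3) 3 (c := 1 / 4) (r := 2 - e) (ε := 1 / 100) (by norm_num) (by linarith)
      (by norm_num),
    decay' ((10752 + C3) * (8 * Real.exp 9)) (4 - e) (c := 1 / 2) (r := e / 2) (ε := 1 / 100)
      (by norm_num) (by linarith) (by norm_num), e5,
    decay' ((10752 + C3) * (30 * Real.exp 9)) 3 (c := 1 / 16) (r := 2) (ε := 1 / 100)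
      (by norm_num) (by norm_num) (by norm_num),
    ratio (a := 1 - e / 2) (b := 1 - e / 3) (by linarith) 2,
    (tendsto_rpow_atTop (show 0 < 1 - e / 3 by linarith)).eventually_ge_atTop 64,
    ratio (a := 1 - 2 * e / 3) (b := 1 - e / 2) (by linarith) 2,
    decay' 1 2 (c := 1 / 16) (r := 2 - e) (ε := 1) (by norm_num) (by linarith) (by norm_num)]
    with L h0 h1 h2 h3 h4 h5 h6 h7 h8 h9 h10
  exact ⟨h0, h1, h2, h3, h4, h5, h6, h7, h8, h9, h10⟩

/-- one height -/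
theorem one_height {e D T L : ℝ} (he : 0 < e) (he1 : e < 1) (hT : 1 ≤ T) (hLT : Real.exp L = T)
    (hc : Cond e D L) {t : ℝ} (ht1 : T + 2 * L ≤ t) (ht2 : t ≤ 2 * T - 2 * L)
    (hG : ∀ s : ℂ, riemannZeta s = 0 → 0 < s.re → s.re < 1 → |s.im - t| ≤ L →
      |s.re - 1 / 2| ≤ D * Real.log L / L) {σ : ℝ} (hσ : 1 / 2 + L ^ (e - 1) ≤ σ) (hσ3 : σ ≤ 3) :
    ((σ : ℂ) + t * I) ≠ 1 ∧ riemannZeta (σ + t * I) ≠ 0 ∧
    ‖q (σ + t * I) - ∑ n ∈ Finset.Icc 2 ⌊Real.exp (L ^ (1 - e / 3))⌋₊,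
      am (σ + t * I) n * ((Ph (L ^ (1 - e / 2) - Real.log n) : ℝ) : ℂ)‖ ≤ 1 / 10 := by
  obtain ⟨c0, c1, c2, c3, c4, c5, c6, c7, c8, c9, c10⟩ := hc
  have hL0 : 0 < L := by linarith
  set η : ℝ := L ^ (e - 1) / 4 with hη
  have hp : 0 < L ^ (e - 1) := Real.rpow_pos_of_pos hL0 _
  have hη0 : 0 < η := by rw [hη]; linarith
  have hρ : D * Real.log L / L < η := by
    rw [hη, div_lt_iff₀ hL0]
    have h1 : L ^ (e - 1) / 4 * L = L ^ e / 4 := by
      have : L ^ e = L ^ (e - 1) * L := by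
        rw [← Real.rpow_add_one hL0.ne']
        congr 1
        ring
      rw [this]
      ring
    rw [h1]
    linarith
  set s : ℂ := (σ : ℂ) + t * I with hs
  have hsre : s.re = σ := by simp [hs]
  have hsim : s.im = t := by simp [hs]
  have hreg : ∀ z : ℂ, 1 / 2 + 2 * η ≤ z.re → z.re ≤ 7 → |z.im - t| ≤ L / 2 →
      z ≠ 1 ∧ riemannZeta z ≠ 0 ∧ ‖q z‖ ≤ 672 * L / η ^ 2 := fun z h1 h2 h3 =>
    region hT hLT (by linarith) hη0 (by rw [hη]; linarith) hρ ht1 ht2 hG h1 h2 h3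
  have hM0 : 672 * L / η ^ 2 ≤ 10752 * L ^ (3 : ℝ) := by
    have h1 : η ^ 2 = L ^ (2 * e - 2) / 16 := by
      rw [hη, div_pow, ← Real.rpow_natCast, ← Real.rpow_mul hL0.le]
      norm_num
      congr 1
      ring
    have h2 : 672 * L / η ^ 2 = 10752 * (L / L ^ (2 * e - 2)) := by
      rw [h1]
      have : L ^ (2 * e - 2) ≠ 0 := (Real.rpow_pos_of_pos hL0 _).ne'
      field_simp
      norm_num
    have h3 : L / L ^ (2 * e - 2) = L ^ (3 - 2 * e) := by
      rw [div_eq_iff (Real.rpow_pos_of_pos hL0 _).ne', ← Real.rpow_add hL0]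
      rw [show 3 - 2 * e + (2 * e - 2) = 1 by ring, Real.rpow_one]
    rw [h2, h3]
    have h4 : L ^ (3 - 2 * e) ≤ L ^ (3 : ℝ) :=
      Real.rpow_le_rpow_of_exponent_le (by linarith) (by linarith)
    linarith
  set M : ℝ := (10752 + C3) * L ^ (3 : ℝ) with hM
  have hL3 : 1 ≤ L ^ (3 : ℝ) := Real.one_le_rpow (by linarith) (by norm_num)
  have hC3 := C3_nonneg
  have hMa : 672 * L / η ^ 2 ≤ M := by
    rw [hM]
    nlinarith
  have hMb : C3 ≤ M := by
    rw [hM]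
    calc C3 ≤ (10752 + C3) * 1 := by linarith
      _ ≤ (10752 + C3) * L ^ (3 : ℝ) := by gcongr
  have hM00 : 0 ≤ M := hC3.trans hMb
  set l : ℝ := L ^ (1 - e / 2) with hl
  have hl0 : 0 ≤ l := Real.rpow_nonneg hL0.le _
  set δ : ℝ := σ - (1 / 2 + 2 * η) with hδ
  have hδ1 : 2 * η ≤ δ := by rw [hδ, hη]; linarith
  have hs1 := hreg s (by rw [hsre, hη]; linarith) (by rw [hsre]; linarith)
    (by rw [hsim]; simp; linarith)
  refine ⟨hs1.1, hs1.2.1, ?_⟩
  have happ := approx (s := s) (U := {w | s + w ∈ {z : ℂ | z ≠ 1 ∧ riemannZeta z ≠ 0}})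
    (by rw [hsre]; linarith)
    (by
      have h1 : IsOpen {z : ℂ | z ≠ 1 ∧ riemannZeta z ≠ 0} := by
        have hd : ContinuousOn riemannZeta {1}ᶜ := fun w hw =>
          (differentiableAt_riemannZeta hw).continuousAt.continuousWithinAt
        exact hd.isOpen_inter_preimage isOpen_compl_singleton isOpen_compl_singleton
      exact h1.preimage (by fun_prop))
    (by
      intro w hw
      have h1 : DifferentiableAt ℂ q (s + w) := q_diff hw.1 hw.2
      exact (h1.comp w (by fun_prop : DifferentiableAt ℂ (fun w => s + w) w)).differentiableWithinAt)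
    (δ := δ) (H := L / 2) (M := M) (l := l) (by linarith) (by linarith) (by linarith) hl0 hMb
    (by
      intro w h1 h2 h3
      have h4 := hreg (s + w) (by rw [add_re, hsre]; linarith) (by rw [add_re, hsre]; linarith)
        (by rw [add_im, hsim, add_sub_cancel_left]; exact h3)
      exact ⟨⟨h4.1, h4.2.1⟩, h4.2.2.trans hMa⟩)
  have htr := trunc (s := s) (by rw [hsre]; linarith) (l := l)
    (N := ⌊Real.exp (L ^ (1 - e / 3))⌋₊)
    (by
      rw [Nat.one_le_floor_iff]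
      exact Real.one_le_exp (by linarith))
    (by
      intro n hn
      have h1 : Real.exp (L ^ (1 - e / 3)) < n := (Nat.floor_lt (Real.exp_nonneg _)).1 hn
      have h2 : L ^ (1 - e / 3) ≤ Real.log n := by
        rw [← Real.log_exp (L ^ (1 - e / 3))]
        exact Real.log_le_log (Real.exp_pos _) h1.le
      exact ⟨c7.trans h2, c8.trans h2⟩)
  have hN : (40 : ℝ) ≤ (⌊Real.exp (L ^ (1 - e / 3))⌋₊ : ℝ) := by
    have h1 : 64 + 1 ≤ Real.exp (L ^ (1 - e / 3)) :=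
      le_trans (by linarith) (Real.add_one_le_exp _)
    have h2 := Nat.lt_floor_add_one (Real.exp (L ^ (1 - e / 3)))
    linarith
  have htr2 : 2 / (⌊Real.exp (L ^ (1 - e / 3))⌋₊ : ℝ) ≤ 1 / 20 := by
    rw [div_le_iff₀ (by linarith)]
    linarith
  -- the errors
  have E1 : M * Real.exp (-l ^ 2 / 4) ≤ 1 / 100 := by
    have h1 : -l ^ 2 / 4 = -(1 / 4) * L ^ (2 - e) := by
      rw [hl, ← Real.rpow_natCast, ← Real.rpow_mul hL0.le]
      have : (1 - e / 2) * ((2 : ℕ) : ℝ) = 2 - e := by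
        push_cast
        ring
      rw [this]
      ring
    rw [h1, hM, mul_assoc]
    exact c3
  have E2 : M * (4 * Real.exp (9 - δ * l) / δ) ≤ 1 / 100 := by
    have h1 : Real.exp (9 - δ * l) ≤ Real.exp 9 * Real.exp (-(1 / 2) * L ^ (e / 2)) := by
      rw [← Real.exp_add]
      apply Real.exp_le_exp.2
      have h2 : 2 * η * l = 1 / 2 * L ^ (e / 2) := by
        rw [hη, hl]
        have : L ^ (e / 2) = L ^ (e - 1) * L ^ (1 - e / 2) := by
          rw [← Real.rpow_add hL0]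
          congr 1
          ring
        rw [this]
        ring
      have h3 : 2 * η * l ≤ δ * l := mul_le_mul_of_nonneg_right hδ1 hl0
      linarith
    have h4 : 1 / δ ≤ 2 * L ^ (1 - e) := by
      have h5 : L ^ (e - 1) * L ^ (1 - e) = 1 := by
        rw [← Real.rpow_add hL0]
        rw [show e - 1 + (1 - e) = 0 by ring, Real.rpow_zero]
      have h6 : 0 < L ^ (1 - e) := Real.rpow_pos_of_pos hL0 _
      rw [div_le_iff₀ (by linarith)]
      have h7 : 2 * L ^ (1 - e) * (2 * η) ≤ 2 * L ^ (1 - e) * δ := by gcongr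
      have h8 : 2 * L ^ (1 - e) * (2 * η) = 1 := by
        rw [hη]
        linear_combination h5
      linarith
    have h9 : L ^ (4 - e) = L ^ (3 : ℝ) * L ^ (1 - e) := by
      rw [← Real.rpow_add hL0]
      congr 1
      ring
    have h10 : 0 ≤ 1 / δ := by
      have : 0 < δ := by linarith
      positivity
    calc M * (4 * Real.exp (9 - δ * l) / δ) = 4 * M * (Real.exp (9 - δ * l)) * (1 / δ) := by ring
      _ ≤ 4 * M * (Real.exp 9 * Real.exp (-(1 / 2) * L ^ (e / 2))) * (2 * L ^ (1 - e)) := by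
        gcongr
      _ = (10752 + C3) * (8 * Real.exp 9) * (L ^ (4 - e) * Real.exp (-(1 / 2) * L ^ (e / 2))) := by
        rw [hM, h9]
        ring
      _ ≤ _ := c4
  have E3 : Real.exp (9 + 3 * l - (L / 2) ^ 2 / 2) ≤ Real.exp 9 * Real.exp (-(1 / 16) * L ^ (2 : ℝ)) := by
    rw [← Real.exp_add, Real.rpow_two]
    apply Real.exp_le_exp.2
    nlinarith
  have E4 : Real.exp (9 + 3 * l - (L / 2) ^ 2) ≤ Real.exp 9 * Real.exp (-(1 / 16) * L ^ (2 : ℝ)) := by
    rw [← Real.exp_add, Real.rpow_two]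
    apply Real.exp_le_exp.2
    nlinarith
  have E5 : M * (24 * Real.exp (9 + 3 * l - (L / 2) ^ 2) +
      6 * Real.exp (9 + 3 * l - (L / 2) ^ 2 / 2)) ≤ 1 / 100 := by
    calc M * (24 * Real.exp (9 + 3 * l - (L / 2) ^ 2) +
        6 * Real.exp (9 + 3 * l - (L / 2) ^ 2 / 2)) ≤
          M * (24 * (Real.exp 9 * Real.exp (-(1 / 16) * L ^ (2 : ℝ))) +
            6 * (Real.exp 9 * Real.exp (-(1 / 16) * L ^ (2 : ℝ)))) := by gcongr
      _ = (10752 + C3) * (30 * Real.exp 9) * (L ^ (3 : ℝ) * Real.exp (-(1 / 16) * L ^ (2 : ℝ))) := by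
        rw [hM]
        ring
      _ ≤ _ := c6
  have htot : ‖q s - ∑' n : ℕ, am s n * ((Ph (l - Real.log n) : ℝ) : ℂ)‖ ≤ 3 / 100 := by
    refine happ.trans ?_
    have : M * (Real.exp (-l ^ 2 / 4) + 4 * Real.exp (9 - δ * l) / δ +
        24 * Real.exp (9 + 3 * l - (L / 2) ^ 2) + 6 * Real.exp (9 + 3 * l - (L / 2) ^ 2 / 2)) =
        M * Real.exp (-l ^ 2 / 4) + M * (4 * Real.exp (9 - δ * l) / δ) +
        M * (24 * Real.exp (9 + 3 * l - (L / 2) ^ 2) +
          6 * Real.exp (9 + 3 * l - (L / 2) ^ 2 / 2)) := by ring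
    rw [this]
    linarith
  have hfin := norm_add_le (q s - ∑' n : ℕ, am s n * ((Ph (l - Real.log n) : ℝ) : ℂ))
    (∑' n : ℕ, am s n * ((Ph (l - Real.log n) : ℝ) : ℂ) -
      ∑ n ∈ Finset.Icc 2 ⌊Real.exp (L ^ (1 - e / 3))⌋₊,
        am s n * ((Ph (l - Real.log n) : ℝ) : ℂ))
  rw [sub_add_sub_cancel] at hfin
  linarith

end

end Pool.Agent.Y179.LD
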